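import Mathlib
import Pool.Agent.Lib.MP_d56194_co.G.G8

set_option autoImplicit false

namespace Pool.Agent.Results.MP_d56194_co.Approximate

/-- Approximate Latin tableau theorem: every Young diagram has one proper colouring whose
first `k` colour classes contain, for every `k`, at least a `1 - 40 / √(k + α₁)` fraction
of the largest union of `k` independent sets (`g` is any independent set, so `g.card` may
be taken to be `α₁`). -/
theorem result (μ : YoungDiagram) :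
    ∃ c : ℕ × ℕ → ℕ,
      (∀ a ∈ μ.cells, ∀ b ∈ μ.cells, a ≠ b → (a.1 = b.1 ∨ a.2 = b.2) → c a ≠ c b) ∧
      ∀ k : ℕ, 0 < k → ∀ f : Fin k → Finset (ℕ × ℕ),
        (∀ i, f i ⊆ μ.cells ∧ ∀ a ∈ f i, ∀ b ∈ f i, a ≠ b → a.1 ≠ b.1 ∧ a.2 ≠ b.2) →
        ∀ g : Finset (ℕ × ℕ),
          (g ⊆ μ.cells ∧ ∀ a ∈ g, ∀ b ∈ g, a ≠ b → a.1 ≠ b.1 ∧ a.2 ≠ b.2) →
          (1 - 40 / Real.sqrt ((k : ℝ) + (g.card : ℝ))) * ((Finset.univ.biUnion f).card : ℝ) ≤
            ((μ.cells.filter (fun x => c x < k)).card : ℝ) :=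
  Pool.MP_d56194_co.main_approx μ

end Pool.Agent.Results.MP_d56194_co.Approximate
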