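import Mathlib
import Pool.Agent.Lib.MP_d56194_co.L.L32

set_option autoImplicit false

namespace Pool.Agent.Results.MP_d56194_co.LargeMultiplicities

open Pool.MP_d56194_co

/-- The Latin tableau conjecture holds exactly for the diagrams with a bounded number `s` of
distinct row lengths all of whose row lengths and column lengths have large and comparable
multiplicities. -/
theorem result (s R : ℕ) : ∃ N₀ : ℕ, ∀ N, N₀ ≤ N → ∀ μ : YoungDiagram,
    ((Finset.range (μ.colLen 0)).image μ.rowLen).card = s →
    (∀ r, r < μ.colLen 0 →
      N ≤ ((Finset.range (μ.colLen 0)).filter (fun r' => μ.rowLen r' = μ.rowLen r)).card ∧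
      ((Finset.range (μ.colLen 0)).filter (fun r' => μ.rowLen r' = μ.rowLen r)).card ≤ R * N) →
    (∀ c, c < μ.rowLen 0 →
      N ≤ ((Finset.range (μ.rowLen 0)).filter (fun c' => μ.colLen c' = μ.colLen c)).card ∧
      ((Finset.range (μ.rowLen 0)).filter (fun c' => μ.colLen c' = μ.colLen c)).card ≤ R * N) →
    CDSColorable μ :=
  large_mult s R

end Pool.Agent.Results.MP_d56194_co.LargeMultiplicities
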