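import Mathlib
import Pool.Agent.Lib.MP_d56194_co.G.G8
import Pool.Agent.Lib.MP_d56194_co.K.K4

set_option autoImplicit false

namespace Pool.Agent.Results.MP_d56194_co.ShiftAndCells

/-- The Latin tableau conjecture for every Young diagram, up to a shift of the colours and up
to a number of cells.  Let `s` be the number of distinct row lengths of `μ`, let every row
length and every column length occur at least `g` times, and let
`286 (⌊log₂ s⌋ + 1) ≤ g t`.  Then one proper colouring with the minimum number of colours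
satisfies, for every `k`: the first `k + t` classes have together at least as many cells as any
union of `k` independent sets, and the first `k` classes have at most
`143 (2 s + 1) (⌊log₂ s⌋ + 1)` cells less. -/
theorem result (μ : YoungDiagram) (g t : ℕ)
    (hrow : ∀ i, i < μ.colLen 0 →
      g ≤ ((Finset.range (μ.colLen 0)).filter (fun i' => μ.rowLen i' = μ.rowLen i)).card)
    (hcol : ∀ j, j < μ.rowLen 0 →
      g ≤ ((Finset.range (μ.rowLen 0)).filter (fun j' => μ.colLen j' = μ.colLen j)).card)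
    (h : 286 * (Nat.log 2 ((Finset.range (μ.colLen 0)).image μ.rowLen).card + 1) ≤ g * t) :
    ∃ c : ℕ × ℕ → ℕ,
      (∀ a ∈ μ.cells, c a < max (μ.colLen 0) (μ.rowLen 0)) ∧
      (∀ a ∈ μ.cells, ∀ b ∈ μ.cells, a ≠ b → (a.1 = b.1 ∨ a.2 = b.2) → c a ≠ c b) ∧
      ∀ k : ℕ, 0 < k → ∀ f : Fin k → Finset (ℕ × ℕ),
        (∀ i, f i ⊆ μ.cells ∧ ∀ a ∈ f i, ∀ b ∈ f i, a ≠ b → a.1 ≠ b.1 ∧ a.2 ≠ b.2) →
        (Finset.univ.biUnion f).card ≤ (μ.cells.filter (fun x => c x < k + t)).card ∧
        (Finset.univ.biUnion f).card ≤ (μ.cells.filter (fun x => c x < k)).card +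
          143 * (2 * ((Finset.range (μ.colLen 0)).image μ.rowLen).card + 1) *
            (Nat.log 2 ((Finset.range (μ.colLen 0)).image μ.rowLen).card + 1) := by
  obtain ⟨c, h1, h2, h3, h4⟩ := Pool.MP_d56194_co.shift_and_cells μ g t ⟨hrow, hcol⟩ h
  refine ⟨c, h2, h1, ?_⟩
  intro k _ f hf
  exact ⟨(Pool.MP_d56194_co.card_le_gcut μ k f hf).trans (h3 k),
    (Pool.MP_d56194_co.card_le_gcut μ k f hf).trans (h4 k)⟩

end Pool.Agent.Results.MP_d56194_co.ShiftAndCells
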