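import Mathlib
import Pool.Agent.Lib.MP_d56194_co.J.J6

set_option autoImplicit false

namespace Pool.Agent.Results.MP_d56194_co.UniformDilation

open Pool.MP_d56194_co

/-- The Latin tableau conjecture holds for all dilations by a sufficiently large number, and
how large depends only on the number of distinct row lengths. -/
theorem result (s : ℕ) : ∃ n₀ : ℕ, ∀ n, n₀ ≤ n → ∀ μ : YoungDiagram,
    ((Finset.range (μ.colLen 0)).image μ.rowLen).card ≤ s → CDSColorable (dilate n μ) :=
  uniform_dilation s

end Pool.Agent.Results.MP_d56194_co.UniformDilation
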